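import Pool.Agent.P8H58.KM.Stm

/-!
# Project KM, package FWDM: from blocks to values of central characters, modulo an integer
(copy of `Pool.Agent.Y171.NV.fwd`)
-/

set_option autoImplicit false

open scoped Classical

noncomputable section

namespace Pool.Agent.P8H21.KM

open Pool.Agent.Y63.NV
open Pool.Agent.Y63.AWC (IsIrreducibleCharacter irr_comp)
open Pool.Agent.Y63.KR (IsPChain chainStabilizer alternatingSum conjSub)
open Pool.Agent.Y171.NV (card_mul_alt card_fib CFm mu mud irr_fin wt_fin card_I card_D card_K card_W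
  numIrrInd_conj)
open Pool.Agent.P8H58.KM

variable {G F : Type} [Group G] [Field F]

/-- the weighted congruence for `B` -/
def EqM (p : ℕ) (m : ℤ) (red : integralClosure ℤ ℂ →+* F) (B : (G → F) → F) : Prop :=
  (Nat.card G : ℤ) * m ∣ (∑ᶠ σ : {σ : Set (Subgroup G) // IsPChain p σ}, (-1) ^ σ.1.ncard *
    ((Nat.card (chainStabilizer σ.1) : ℤ) * (numIrrInd red (chainStabilizer σ.1) B : ℤ))) -
      (Nat.card G : ℤ) * numDzBlock p red B

lemma eqM_of [Finite G] (p : ℕ) (m : ℤ) (red : integralClosure ℤ ℂ →+* F) (B : (G → F) → F)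
    (h : m ∣ alternatingSum p G (fun H => (numIrrInd red H B : ℤ)) - numDzBlock p red B) :
    EqM p m red B := by
  unfold EqM
  rw [← card_mul_alt (fun H => (numIrrInd red H B : ℤ))
    (fun g H => by rw [numIrrInd_conj]), ← mul_sub]
  exact mul_dvd_mul_left _ h

theorem fwdm' [Finite G] (p : ℕ) (m : ℤ) (red : integralClosure ℤ ℂ →+* F)
    (h1 : ∀ (σ : Set (Subgroup G)) (χ : chainStabilizer σ → ℂ), IsPChain p σ →
      IsIrreducibleCharacter χ → EqM p m red (fun f : G → F => centralValue red χ (fun x => f x)))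
    (h2 : ∀ χ : G → ℂ, IsWt p (⊥ : Subgroup G) χ → EqM p m red (centralValue red χ))
    (z : G → F) (c : F) (hz : IsClassFun z) :
    (Nat.card G : ℤ) * m ∣
      (∑ᶠ σ : {σ : Set (Subgroup G) // IsPChain p σ}, (-1) ^ σ.1.ncard *
        ((Nat.card (chainStabilizer σ.1) : ℤ) *
          Knum red (fun x : chainStabilizer σ.1 => z x) c)) -
      (Nat.card G : ℤ) * Nw p red (⊥ : Subgroup G) z c := by
  have hΩ : Fintype {σ : Set (Subgroup G) // IsPChain p σ} := Fintype.ofFinite _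
  have hX : ∀ H : Subgroup G, Finite {χ : H → ℂ // IsIrreducibleCharacter χ} := fun H => irr_fin H
  have hY : Finite {χ : G → ℂ // IsWt p (⊥ : Subgroup G) χ} := wt_fin p G
  have hfX : ∀ H : Subgroup G, Fintype {χ : H → ℂ // IsIrreducibleCharacter χ} :=
    fun H => Fintype.ofFinite _
  have hfY : Fintype {χ : G → ℂ // IsWt p (⊥ : Subgroup G) χ} := Fintype.ofFinite _
  let rX : ∀ H : Subgroup G, {χ : H → ℂ // IsIrreducibleCharacter χ} → (CFm G F → F) :=
    fun H χ => fun f => mu red H χ.1 f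
  let rY : {χ : G → ℂ // IsWt p (⊥ : Subgroup G) χ} → (CFm G F → F) :=
    fun χ => fun f => mud red χ.1 f
  let S : Finset (CFm G F → F) :=
    (Finset.univ : Finset {σ : Set (Subgroup G) // IsPChain p σ}).biUnion
      (fun σ => Finset.univ.image (rX (chainStabilizer σ.1))) ∪ Finset.univ.image rY
  have hSX : ∀ (σ : {σ : Set (Subgroup G) // IsPChain p σ}) χ,
      rX (chainStabilizer σ.1) χ ∈ S := fun σ χ =>
    Finset.mem_union_left _ (Finset.mem_biUnion.2 ⟨σ, Finset.mem_univ _,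
      Finset.mem_image_of_mem _ (Finset.mem_univ _)⟩)
  have hSY : ∀ χ, rY χ ∈ S := fun χ =>
    Finset.mem_union_right _ (Finset.mem_image_of_mem _ (Finset.mem_univ _))
  have key : ∀ β ∈ S, (Nat.card G : ℤ) * m ∣
      (∑ σ : {σ : Set (Subgroup G) // IsPChain p σ}, (-1) ^ σ.1.ncard *
      ((Nat.card (chainStabilizer σ.1) : ℤ) *
        (Nat.card {χ // rX (chainStabilizer σ.1) χ = β} : ℤ))) -
        (Nat.card G : ℤ) * (Nat.card {χ // rY χ = β} : ℤ) := by
    intro β hβ
    obtain ⟨B, hB, hBβ⟩ : ∃ B : (G → F) → F, EqM p m red B ∧ ∀ f : CFm G F, B f.1 = β f := by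
      rcases Finset.mem_union.1 hβ with h | h
      · obtain ⟨σ, -, h⟩ := Finset.mem_biUnion.1 h
        obtain ⟨χ, -, rfl⟩ := Finset.mem_image.1 h
        exact ⟨_, h1 σ.1 χ.1 σ.2 χ.2, fun f => rfl⟩
      · obtain ⟨χ, -, rfl⟩ := Finset.mem_image.1 h
        exact ⟨_, h2 χ.1 χ.2, fun f => rfl⟩
    have e1 := hB
    unfold EqM at e1
    rw [finsum_eq_sum_of_fintype] at e1
    rw [card_D p red B β hBβ]
    have e1' : ∑ σ : {σ : Set (Subgroup G) // IsPChain p σ}, (-1) ^ σ.1.ncard *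
      ((Nat.card (chainStabilizer σ.1) : ℤ) *
        (Nat.card {χ // rX (chainStabilizer σ.1) χ = β} : ℤ)) =
        ∑ σ : {σ : Set (Subgroup G) // IsPChain p σ}, (-1) ^ σ.1.ncard *
      ((Nat.card (chainStabilizer σ.1) : ℤ) * (numIrrInd red (chainStabilizer σ.1) B : ℤ)) := by
      refine Finset.sum_congr rfl fun σ _ => ?_
      rw [card_I red (chainStabilizer σ.1) B β hBβ]
    rw [e1']
    exact e1
  rw [finsum_eq_sum_of_fintype]
  have e2 : ∀ σ : {σ : Set (Subgroup G) // IsPChain p σ},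
      ((-1) ^ σ.1.ncard * ((Nat.card (chainStabilizer σ.1) : ℤ) *
        Knum red (fun x : chainStabilizer σ.1 => z x) c) : ℤ) =
      ∑ β ∈ S, if β ⟨z, hz⟩ = c then (-1) ^ σ.1.ncard *
      ((Nat.card (chainStabilizer σ.1) : ℤ) *
        (Nat.card {χ // rX (chainStabilizer σ.1) χ = β} : ℤ)) else 0 := by
    intro σ
    have e3 := card_K red (chainStabilizer σ.1) ⟨z, hz⟩ c
    have e4 := card_fib (rX (chainStabilizer σ.1)) S (hSX σ) (fun β => β ⟨z, hz⟩ = c)
    have e5 : Knum red (fun x : chainStabilizer σ.1 => z x) c =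
        ∑ β ∈ S, if β ⟨z, hz⟩ = c then Nat.card {χ // rX (chainStabilizer σ.1) χ = β} else 0 :=
      e3.trans e4
    rw [e5, Nat.cast_sum, Finset.mul_sum, Finset.mul_sum]
    refine Finset.sum_congr rfl fun β _ => ?_
    by_cases h : β ⟨z, hz⟩ = c
    · rw [if_pos h, if_pos h]
    · rw [if_neg h, if_neg h, Nat.cast_zero, mul_zero, mul_zero]
  have e6 : Nw p red (⊥ : Subgroup G) z c =
      ∑ β ∈ S, if β ⟨z, hz⟩ = c then Nat.card {χ // rY χ = β} else 0 :=
    (card_W p red ⟨z, hz⟩ c).trans (card_fib rY S hSY (fun β => β ⟨z, hz⟩ = c))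
  rw [Finset.sum_congr rfl fun σ _ => e2 σ, Finset.sum_comm, e6, Nat.cast_sum, Finset.mul_sum,
    ← Finset.sum_sub_distrib]
  refine Finset.dvd_sum fun β hβ => ?_
  by_cases h : β ⟨z, hz⟩ = c
  · simp only [if_pos h]
    exact key β hβ
  · simp only [if_neg h]
    rw [Finset.sum_const_zero, Nat.cast_zero, mul_zero, sub_zero]
    exact dvd_zero _

/-- package FWDM. -/
theorem fwdm : S_FWDM := by
  intro p _ F _ _ _ red G _ _ m h hK z c hz
  exact fwdm' p m red (fun σ χ hσ hχ => eqM_of p m red _ (hK _ (h p F red G σ χ hσ hχ)))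
    (fun χ hχ => eqM_of p m red _ (hK _ (Pool.Agent.Y930.NV.cvh F red G χ hχ.irr))) z c hz

end Pool.Agent.P8H21.KM
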